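import Pool.Agent.Helper64.IG.Goals

/-!
# IG, packet H2: slices of tensors of points
-/

open scoped BigOperators

universe u v

namespace Pool.Agent.Helper64.IG.PkH2

open Pool.Agent.Helper64.IG

/-! ### The value of a form on a list -/

/-- The value of a form on a list (zero if the length is wrong). -/
noncomputable def ftv {I K : Type*} [Zero K] {p : ℕ} (ω : (Fin p → I) → K) (l : List I) : K :=
  if h : l.length = p then ω (fun j => l.get (Fin.cast h.symm j)) else 0

theorem ft_eq {I K : Type*} [Zero K] {p : ℕ} (ω : (Fin p → I) → K) (L : List I) (b : List Bool) :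
    ft ω L b = if b.length = L.length then ftv ω (sel L b) else 0 := rfl

theorem ftv_map {I J K : Type*} [Zero K] {p : ℕ} (ω : (Fin p → J) → K) (f : I → J)
    (l : List I) : ftv ω (l.map f) = ftv (fun a => ω (f ∘ a)) l := by
  unfold ftv
  by_cases h : l.length = p
  · rw [dif_pos h, dif_pos (by rw [List.length_map]; exact h)]
    congr 1
    funext j
    simp
  · rw [dif_neg h, dif_neg (by rw [List.length_map]; exact h)]

theorem ftv_swap {K : Type*} [Field K] {n p : ℕ} {ω : Form K n p} (h : IsDec ω)
    (P R : List (Ix n p)) (a e : Ix n p) :
    ftv ω (P ++ a :: e :: R) = -ftv ω (P ++ e :: a :: R) := by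
  unfold ftv
  by_cases hl : (P ++ a :: e :: R).length = p
  · have hl0 := hl
    simp only [List.length_append, List.length_cons] at hl0
    have hl' : (P ++ e :: a :: R).length = p := by
      simp only [List.length_append, List.length_cons]
      omega
    rw [dif_pos hl, dif_pos hl']
    obtain ⟨c, φ, hφ⟩ := h
    rw [hφ, hφ]
    have h1 : P.length < p := by omega
    have h2 : P.length + 1 < p := by omega
    set s : Equiv.Perm (Fin p) := Equiv.swap ⟨P.length, h1⟩ ⟨P.length + 1, h2⟩ with hs
    have hne : (⟨P.length, h1⟩ : Fin p) ≠ ⟨P.length + 1, h2⟩ := by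
      intro h3
      have := congrArg Fin.val h3
      simp at this
    have hM : (Matrix.of fun i j : Fin p => φ i ((P ++ a :: e :: R).get (Fin.cast hl.symm j))) =
        (Matrix.of fun i j : Fin p =>
          φ i ((P ++ e :: a :: R).get (Fin.cast hl'.symm j))).submatrix id s := by
      ext i j
      simp only [Matrix.of_apply, Matrix.submatrix_apply, id]
      congr 1
      rcases lt_trichotomy (j : ℕ) P.length with hj | hj | hj
      · have hsj : s j = j := by
          rw [hs]
          refine Equiv.swap_apply_of_ne_of_ne ?_ ?_
          · intro h4; rw [h4] at hj; simp at hj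
          · intro h4; rw [h4] at hj; simp at hj
        rw [hsj]
        simp [hj]
      · have hj' : j = ⟨P.length, h1⟩ := Fin.ext hj
        rw [hj', hs, Equiv.swap_apply_left]
        simp
      · rcases Nat.eq_or_lt_of_le (Nat.succ_le_of_lt hj) with hj2 | hj2
        · have hj' : j = ⟨P.length + 1, h2⟩ := Fin.ext hj2.symm
          rw [hj', hs, Equiv.swap_apply_right]
          simp
        · have hsj : s j = j := by
            rw [hs]
            refine Equiv.swap_apply_of_ne_of_ne ?_ ?_
            · intro h4; rw [h4] at hj; simp at hj
            · intro h4; rw [h4] at hj2; simp at hj2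
          rw [hsj]
          obtain ⟨r, hr⟩ := Nat.exists_eq_add_of_le (show P.length + 2 ≤ (j : ℕ) from hj2)
          have e1 : (j : ℕ) - P.length = r + 2 := by omega
          simp [List.getElem_append, e1, show ¬ (j : ℕ) < P.length by omega]
    have hdet := congrArg Matrix.det hM
    rw [Matrix.det_permute'] at hdet
    rw [hs, Equiv.Perm.sign_swap hne] at hdet
    have hdet' : Matrix.det (fun i j : Fin p =>
        φ i ((P ++ a :: e :: R).get (Fin.cast hl.symm j))) =
        -Matrix.det (fun i j : Fin p => φ i ((P ++ e :: a :: R).get (Fin.cast hl'.symm j))) := by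
      refine hdet.trans ?_
      simp only [Units.val_neg, Units.val_one, Int.cast_neg, Int.cast_one, neg_mul, one_mul]
      rfl
    rw [hdet']
    ring
  · have hl' : ¬ (P ++ e :: a :: R).length = p := by
      intro h3
      apply hl
      simp only [List.length_append, List.length_cons] at h3 ⊢
      omega
    rw [dif_neg hl, dif_neg hl', neg_zero]

theorem ftv_move {K : Type*} [Field K] {n p : ℕ} {ω : Form K n p} (h : IsDec ω)
    (A : List (Ix n p)) : ∀ (P B : List (Ix n p)) (e : Ix n p),
    ftv ω (P ++ (A ++ e :: B)) = (-1) ^ A.length * ftv ω (P ++ e :: (A ++ B)) := by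
  induction A with
  | nil =>
    intro P B e
    simp
  | cons a A ih =>
    intro P B e
    have h1 := ih (P ++ [a]) B e
    rw [List.append_assoc, List.append_assoc] at h1
    simp only [List.cons_append, List.nil_append] at h1 ⊢
    rw [h1, ftv_swap h, List.length_cons, pow_succ]
    ring

/-! ### Selection -/

theorem sel_append {α : Type*} : ∀ (L1 : List α) (b1 : List Bool), L1.length = b1.length →
    ∀ (L2 : List α) (b2 : List Bool), sel (L1 ++ L2) (b1 ++ b2) = sel L1 b1 ++ sel L2 b2
  | [], [], _, L2, b2 => by simp [sel]
  | a :: L1, true :: b1, h, L2, b2 => by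
    simp only [List.cons_append, sel]
    rw [sel_append L1 b1 (by simpa using h) L2 b2]
  | a :: L1, false :: b1, h, L2, b2 => by
    simp only [List.cons_append, sel]
    rw [sel_append L1 b1 (by simpa using h) L2 b2]
  | [], _ :: _, h, _, _ => by simp at h
  | _ :: _, [], h, _, _ => by simp at h

theorem sel_map {α β : Type*} (f : α → β) : ∀ (L : List α) (b : List Bool),
    sel (L.map f) b = (sel L b).map f
  | [], b => by cases b <;> simp [sel]
  | a :: L, [] => by simp [sel]
  | a :: L, true :: b => by
    simp only [List.map_cons, sel]
    rw [sel_map f L b]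
  | a :: L, false :: b => by
    simp only [List.map_cons, sel]
    rw [sel_map f L b]

theorem sel_length_le {α : Type*} : ∀ (L : List α) (b : List Bool), (sel L b).length ≤ L.length
  | [], b => by cases b <;> simp [sel]
  | a :: L, [] => by simp [sel]
  | a :: L, true :: b => by
    simp only [List.length_cons, sel]
    have := sel_length_le L b
    omega
  | a :: L, false :: b => by
    simp only [List.length_cons, sel]
    have := sel_length_le L b
    omega

theorem mem_of_mem_sel {α : Type*} {x : α} : ∀ (L : List α) (b : List Bool), x ∈ sel L b → x ∈ L
  | [], b, h => by cases b <;> simp [sel] at h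
  | a :: L, [], h => by simp [sel] at h
  | a :: L, true :: b, h => by
    simp only [sel, List.mem_cons] at h ⊢
    rcases h with h | h
    · exact Or.inl h
    · exact Or.inr (mem_of_mem_sel L b h)
  | a :: L, false :: b, h => by
    simp only [sel, List.mem_cons] at h ⊢
    exact Or.inr (mem_of_mem_sel L b h)

theorem ftv_of_length_ne {I K : Type*} [Zero K] {p : ℕ} (ω : (Fin p → I) → K) {l : List I}
    (h : l.length ≠ p) : ftv ω l = 0 := dif_neg h

theorem inc_inj {n p m q : ℕ} (hn : n ≤ m) (hp : p ≤ q) : Function.Injective (inc hn hp) :=
  Sum.map_injective.2 ⟨Fin.castLE_injective hn, Fin.castLE_injective hp⟩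

/-- Everything but `inl (last n)` is in the range of `inc`. -/
theorem range_inl {n p : ℕ} {v : Ix (n + 1) p} (h : v ≠ Sum.inl (Fin.last n)) :
    ∃ w : Ix n p, inc (Nat.le_succ n) le_rfl w = v := by
  rcases v with v | v
  · have h1 : v ≠ Fin.last n := fun h2 => h (by rw [h2])
    refine ⟨Sum.inl (v.castPred h1), ?_⟩
    simp only [inc, Sum.map_inl]
    congr 1
  · exact ⟨Sum.inr v, rfl⟩

theorem range_inr {n p : ℕ} {v : Ix n (p + 1)} (h : v ≠ Sum.inr (Fin.last p)) :
    ∃ w : Ix n p, inc le_rfl (Nat.le_succ p) w = v := by
  rcases v with v | v
  · exact ⟨Sum.inl v, rfl⟩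
  · have h1 : v ≠ Fin.last p := fun h2 => h (by rw [h2])
    refine ⟨Sum.inr (v.castPred h1), ?_⟩
    simp only [inc, Sum.map_inr]
    congr 1

theorem prod_sign {K : Type*} [Field K] {I : Type*} (L1 : List I) [DecidablePred (· ∈ L1)]
    (A B : List I) (hA : ∀ x ∈ A, x ∈ L1) (hB : ∀ x ∈ B, x ∉ L1) :
    ((A ++ B).map (fun u => if u ∈ L1 then (-1 : K) else 1)).prod = (-1) ^ A.length := by
  rw [List.map_append, List.prod_append]
  have h1 : (A.map (fun u => if u ∈ L1 then (-1 : K) else 1)) =
      A.map (fun _ => (-1 : K)) := List.map_congr_left fun x hx => if_pos (hA x hx)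
  have h2 : (B.map (fun u => if u ∈ L1 then (-1 : K) else 1)) =
      B.map (fun _ => (1 : K)) := List.map_congr_left fun x hx => if_neg (hB x hx)
  rw [h1, h2]
  simp

/-- The packet H2. -/
theorem h2 (mono : G_MONO.{u}) : G_H2.{u} := by
  classical
  intro K _ C hC m i c z hi hz
  rcases hz with rfl | ⟨x, hx, n, p, hnp, L, hL, hLm, rfl⟩
  · left
    funext b
    simp
  -- decomposition of the list
  have hiL : i < L.length := by omega
  obtain ⟨L1, e, L2, hLe, hL1⟩ : ∃ (L1 : List (Ix n p)) (e : Ix n p) (L2 : List (Ix n p)),
      L = L1 ++ e :: L2 ∧ L1.length = i :=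
    ⟨L.take i, L[i], L.drop (i + 1), by
      rw [List.cons_getElem_drop_succ, List.take_append_drop],
      by rw [List.length_take]; omega⟩
  subst hLe
  have hlen : L1.length + L2.length = m := by
    simp only [List.length_append, List.length_cons] at hLm
    omega
  have hnd : (L1 ++ L2).Nodup := by
    refine hL.sublist ?_
    exact List.Sublist.append_left (List.sublist_cons_self e L2) L1
  have he : e ∉ L1 ++ L2 := by
    have h3 := List.nodup_middle.1 hL
    exact (List.nodup_cons.1 h3).1
  have hdisj : ∀ x ∈ L2, x ∉ L1 := by
    intro x hx2 hx1
    exact (List.nodup_append.1 hnd).2.2 x hx1 x hx2 rfl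
  -- the slice
  have hslice : (fun b : List Bool => if b.length = m then
      ft (x.x n p) (L1 ++ e :: L2) (b.take i ++ c :: b.drop i) else 0) =
      fun b => if b.length = m then ftv (x.x n p) (sel L1 (b.take i) ++
        (if c then e :: sel L2 (b.drop i) else sel L2 (b.drop i))) else 0 := by
    funext b
    by_cases hb : b.length = m
    · rw [if_pos hb, if_pos hb, ft_eq]
      have h4 : (b.take i ++ c :: b.drop i).length = (L1 ++ e :: L2).length := by
        simp only [List.length_append, List.length_cons, List.length_take, List.length_drop]
        omega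
      rw [if_pos h4, sel_append _ _ (by rw [List.length_take]; omega)]
      cases c <;> simp [sel]
    · rw [if_neg hb, if_neg hb]
  rw [hslice]
  have hsel : ∀ b : List Bool, b.length = m →
      sel (L1 ++ L2) b = sel L1 (b.take i) ++ sel L2 (b.drop i) := by
    intro b hb
    conv_lhs => rw [← List.take_append_drop i b]
    exact sel_append _ _ (by rw [List.length_take]; omega) _ _
  cases c with
  | false =>
    simp only [Bool.false_eq_true, if_false]
    cases n with
    | zero =>
      left
      funext b
      by_cases hb : b.length = m
      · rw [if_pos hb, ← hsel b hb]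
        refine ftv_of_length_ne _ ?_
        have := sel_length_le (L1 ++ L2) b
        rw [List.length_append] at this
        omega
      · rw [if_neg hb]; rfl
    | succ n =>
      right
      set σ : Equiv.Perm (Ix (n + 1) p) := Equiv.swap (Sum.inl (Fin.last n)) e with hσ
      obtain ⟨y, hy, hyx⟩ := mono K C hC x hx (n + 1) p σ (fun _ => 1) (fun _ => Or.inl rfl)
      set f : Ix n p → Ix (n + 1) p := fun v => σ (inc (Nat.le_succ n) le_rfl v) with hf
      have hfinj : Function.Injective f := σ.injective.comp (inc_inj _ _)
      have hrange : ∀ v ∈ L1 ++ L2, v ∈ Set.range f := by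
        intro v hv
        have h5 : σ.symm v ≠ Sum.inl (Fin.last n) := by
          intro h6
          have h7 : v = e := by
            rw [← σ.apply_symm_apply v, h6, hσ, Equiv.swap_apply_left]
          rw [h7] at hv
          exact he hv
        obtain ⟨w, hw⟩ := range_inl h5
        exact ⟨w, by rw [hf]; simp only [hw, Equiv.apply_symm_apply]⟩
      obtain ⟨L'', hL''⟩ : ∃ L'' : List (Ix n p), L''.map f = L1 ++ L2 := by
        have h6 : (L1 ++ L2) ∈ Set.range (List.map f) := by
          rw [Set.range_list_map]
          exact hrange
        exact h6
      refine ⟨y, hy, n, p, by omega, L'', ?_, ?_, ?_⟩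
      · refine List.Nodup.of_map f ?_
        rw [hL'']
        exact hnd
      · have := congrArg List.length hL''
        simp only [List.length_map, List.length_append] at this
        omega
      · have hlen'' : L''.length = m := by
          have := congrArg List.length hL''
          simp only [List.length_map, List.length_append] at this
          omega
        funext b
        rw [ft_eq, hlen'']
        by_cases hb : b.length = m
        · rw [if_pos hb, if_pos hb, ← hsel b hb, ← hL'', sel_map, ftv_map]
          congr 1
          funext a
          rw [← y.xi_eq n p]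
          unfold xi
          rw [hyx]
          simp only [Finset.prod_const_one, one_mul]
          rfl
        · rw [if_neg hb, if_neg hb]
  | true =>
    simp only [if_true]
    cases p with
    | zero =>
      left
      funext b
      by_cases hb : b.length = m
      · rw [if_pos hb]
        refine ftv_of_length_ne _ ?_
        simp
      · rw [if_neg hb]; rfl
    | succ p =>
      right
      set σ : Equiv.Perm (Ix n (p + 1)) := Equiv.swap (Sum.inr (Fin.last p)) e with hσ
      obtain ⟨y, hy, hyx⟩ := mono K C hC x hx n (p + 1) σ
        (fun v => if σ v ∈ L1 then (-1 : K) else 1) (fun v => by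
          by_cases h : σ v ∈ L1
          · right; simp [h]
          · left; simp [h])
      set f : Ix n p → Ix n (p + 1) := fun v => σ (inc le_rfl (Nat.le_succ p) v) with hf
      have hrange : ∀ v ∈ L1 ++ L2, v ∈ Set.range f := by
        intro v hv
        have h5 : σ.symm v ≠ Sum.inr (Fin.last p) := by
          intro h6
          have h7 : v = e := by
            rw [← σ.apply_symm_apply v, h6, hσ, Equiv.swap_apply_left]
          rw [h7] at hv
          exact he hv
        obtain ⟨w, hw⟩ := range_inr h5
        exact ⟨w, by rw [hf]; simp only [hw, Equiv.apply_symm_apply]⟩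
      obtain ⟨L'', hL''⟩ : ∃ L'' : List (Ix n p), L''.map f = L1 ++ L2 := by
        have h6 : (L1 ++ L2) ∈ Set.range (List.map f) := by
          rw [Set.range_list_map]
          exact hrange
        exact h6
      have hlen'' : L''.length = m := by
        have := congrArg List.length hL''
        simp only [List.length_map, List.length_append] at this
        omega
      have he1 : e ∉ L1 := fun h => he (List.mem_append_left _ h)
      refine ⟨y, hy, n, p, by omega, L'', ?_, hlen'', ?_⟩
      · refine List.Nodup.of_map f ?_
        rw [hL'']
        exact hnd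
      · funext b
        rw [ft_eq, hlen'']
        by_cases hb : b.length = m
        · rw [if_pos hb, if_pos hb]
          have h8 := ftv_move (x.dec n (p + 1)) (sel L1 (b.take i)) [] (sel L2 (b.drop i)) e
          rw [List.nil_append, List.nil_append] at h8
          rw [h8, ← hsel b hb]
          have h9 : sel (L1 ++ L2) b = (sel L'' b).map f := by rw [← hL'', sel_map]
          by_cases hl : (sel L'' b).length = p
          · have h10 : ftv (y.x n p) (sel L'' b) =
                ((sel L'' b).map (fun v => if f v ∈ L1 then (-1 : K) else 1)).prod *
                  ftv (x.x n (p + 1)) (e :: (sel L'' b).map f) := by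
              unfold ftv
              rw [dif_pos hl, dif_pos (by simp [hl])]
              rw [← y.theta_eq n p]
              unfold theta
              rw [hyx, Fin.prod_univ_succ]
              simp only [Fin.cons_zero, Fin.cons_succ, Function.comp]
              have h11 : σ (Sum.inr (Fin.last p)) = e := by rw [hσ, Equiv.swap_apply_left]
              rw [h11, if_neg he1, one_mul]
              congr 1
              · have h12 : (sel L'' b).map (fun v => if f v ∈ L1 then (-1 : K) else 1) =
                    List.ofFn (fun j : Fin p => if f ((sel L'' b).get (Fin.cast hl.symm j)) ∈ L1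
                      then (-1 : K) else 1) := by
                  refine List.ext_getElem (by simp [hl]) fun k h13 h14 => ?_
                  simp
                rw [h12, List.prod_ofFn]
              · congr 1
                funext j
                refine Fin.cases ?_ (fun j => ?_) j
                · simp [h11]
                · simp [hf]
            rw [h10, ← h9]
            congr 1
            have h15 : (sel L'' b).map (fun v => if f v ∈ L1 then (-1 : K) else 1) =
                ((sel L'' b).map f).map (fun u => if u ∈ L1 then (-1 : K) else 1) := by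
              rw [List.map_map]
              rfl
            rw [h15, ← h9, hsel b hb]
            refine (prod_sign L1 _ _ (fun u hu => mem_of_mem_sel _ _ hu) fun u hu => ?_).symm
            exact hdisj u (mem_of_mem_sel _ _ hu)
          · rw [ftv_of_length_ne _ hl, ftv_of_length_ne, mul_zero]
            rw [h9]
            simp only [List.length_cons, List.length_map]
            omega
        · rw [if_neg hb, if_neg hb]

end Pool.Agent.Helper64.IG.PkH2
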